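import Mathlib
import Pool.Agent.N95.PM.PosThm

set_option autoImplicit false

open scoped ENNReal

namespace Pool.Agent.Results.MP_9bce2c_an.OutsideUnit

open Pool.Agent.N95.PM

/-- For every Schatten exponent `q ≠ 2` in `[1, ∞]` and every real `p` with `p < 0` or `p > 1`, the
weighted power mean with exponent `p` is not monotonic with respect to `δ_q`. -/
theorem result : ∀ (q : ℝ≥0∞) (p : ℝ), 1 ≤ q → q ≠ 2 → (p < 0 ∨ 1 < p) →
    ¬ PowerMeanMonotonic p q := by
  intro q p hq hq2 hp
  rcases hp with hp | hp
  · exact neg_not_monotonic p hp q hq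
  · exact pos_not_monotonic p hp q hq hq2

end Pool.Agent.Results.MP_9bce2c_an.OutsideUnit
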