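import Mathlib
import Pool.Agent.N95.PM.Two

set_option autoImplicit false

open scoped ENNReal

namespace Pool.Agent.Results.MP_9bce2c_an.SquareRootMean

open Pool.Agent.N95.PM

/-- The weighted power mean with exponent `1/2`, `(t X^(1/2) + (1-t) Y^(1/2))^2`, is monotonic with
respect to every Schatten metric `δ_q`, `1 ≤ q ≤ ∞`. -/
theorem result : ∀ q : ℝ≥0∞, 1 ≤ q → PowerMeanMonotonic (1 / 2) q :=
  fun q hq => half_monotonic q hq

end Pool.Agent.Results.MP_9bce2c_an.SquareRootMean
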